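import Pool.Agent.P.MP_081461_lc.DArith

namespace Pool.Agent.Results.MP_081461_lc.Dichotomy

open Pool.Agent.P.MP_081461_lc Filter

theorem result (F G : ℕ → ℕ) (hF : ∀ n, 2 ≤ F n) (hG : ∀ n, 2 ≤ G n) (hF' : Monotone F)
    (hG' : Monotone G) (h : ∃ c, ∀ᶠ n in atTop, F n ^ n ≤ G (n ^ c)) :
    ((∃ c, ∀ᶠ n in atTop, G n ≤ F (n ^ c)) → dNe G = dNe F) ∧
    ((¬ ∃ c, ∀ᶠ n in atTop, G n ≤ F (n ^ c)) → Sep F G) := by
  obtain ⟨c, h⟩ := h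
  refine ⟨fun ⟨e, h'⟩ => le_antisymm
    (dNe_le (fun n => two_pos.trans_le (hG n)) hG' hF hF' h)
    (dNe_le (fun n => two_pos.trans_le (hF n)) hF' hG hG' (pow_le_of_le hF hF' hG' h h')),
    fun h' => ?_⟩
  obtain ⟨φ, hφ⟩ := exists_phi hF hF' h h'
  obtain ⟨p⟩ := exists_par hF hF' (summable_inv hF hG hG' h) hφ
  exact sep_of_par p hF hF' hG hG'

end Pool.Agent.Results.MP_081461_lc.Dichotomy
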