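import Pool.Agent.P.MP_081461_lc.BVm

namespace Pool.Agent.Results.MP_081461_lc.Separation

open Pool.Agent.P.MP_54b694_lc Pool.Agent.P.MP_b10269_lc.H21 Pool.Agent.P.MP_081461_lc Filter

theorem result (F : ℕ → ℕ) (hF : OrderFn F) :
    ∃ G : ℕ → ℕ, OrderFn G ∧ Tendsto (fun n => (G n : ℝ) / F n) atTop atTop ∧
      ∃ (M : Type 1) (E : M → M → Prop), IsZFC E ∧ ∃ w f g a b : M,
        IsOmega E w ∧ (∀ x, E x w → ∃ n, Num E n x) ∧ Codes E w f F ∧ Codes E w g G ∧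
        IsLeastCard E (Dom E w g) a ∧ IsLeastCard E (Dom E w f) b ∧ CardLT E a b := by
  obtain ⟨hc, h2, hm, -⟩ := hF
  have h0 : ∀ n, 0 < F n := fun n => two_pos.trans_le (h2 n)
  have h1 : ∀ n, F n ≤ GG F n := fun n => by
    rw [GG_eq]
    exact Nat.le_succ_of_le ((hm (n.le_succ.trans (s_mono F).le_apply)).trans
      ((Nat.le_self_pow (len_pos F n).ne' _).trans (Nat.le_mul_of_pos_left _ (g_pos F n))))
  refine ⟨GG F, ⟨computable_GG F hc, fun n => (h2 n).trans (h1 n), fun m n h =>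
    Nat.le_of_succ_le_succ ((g_mono h2).monotone (Nat.succ_le_succ h)), fun k =>
      ⟨k, (Nat.le_mul_of_pos_right k (h0 k)).trans (GG_ge h2 hm k)⟩⟩,
    tendsto_atTop_mono (fun n => (le_div_iff₀ (Nat.cast_pos.mpr (h0 n))).mpr
      (by exact_mod_cast GG_ge h2 hm n)) tendsto_natCast_atTop_atTop, ?_⟩
  obtain ⟨B, _, hB, hE, hM⟩ := exists_algebra h2 hm
  obtain ⟨U, M, E, j, t1, t2, t3⟩ :=
    exists_omega_model hB (cns omegaN (cns (fnN (gX F)) fun _ => fnN (gX (GG F))))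
  obtain ⟨w, hw : j w = mk U omegaN⟩ := t2 0
  obtain ⟨f, hf : j f = mk U (fnN (gX F))⟩ := t2 1
  obtain ⟨g, hg : j g = mk U (fnN (gX (GG F)))⟩ := t2 2
  have hC : ∀ (H : ℕ → ℕ) (h : M), j h = mk U (fnN (gX H)) → Codes E w h H := fun H h e =>
    ⟨(t1 (fun _ E v => IsFn E (v 0) (v 1)) (cns w fun _ => h)).mpr (by
      show IsFn _ (j w) (j h)
      rw [hw, e]
      exact isFn_fnN (good_gX fun n => (H n).lt_succ_self).1
        (good_gX fun n => (H n).lt_succ_self).2.1 U),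
    fun n => (t1 (fun _ E v => ∀ a b, Num E n a → Num E (H n) b → Rel E (v 0) a b)
      fun _ => h).mpr fun a b ha hb => by
        rw [e, (num_iff U _ a).mp ha, (num_iff U _ b).mp hb]
        exact rel_gX U H n⟩
  obtain ⟨a, b, g1, g2, g3⟩ := (t1 (fun _ E v => ∃ a b, IsLeastCard E (Dom E (v 0) (v 2)) a ∧
      IsLeastCard E (Dom E (v 0) (v 1)) b ∧ CardLE E a b ∧ ¬ CardLE E b a)
      (cns w (cns f fun _ => g))).mpr (by
    show ∃ a b, IsLeastCard _ (Dom _ (j w) (j g)) a ∧ IsLeastCard _ (Dom _ (j w) (j f)) b ∧ _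
    rw [hw, hf, hg]
    exact main h2 h1 hE hM U)
  refine ⟨M, E, isZFC_of t1 w (mod_isZFC U), w, f, g, a, b,
    (t1 (fun _ E v => IsOmega E (v 0)) fun _ => w).mpr
      (hw ▸ ⟨omega_inductive U, omega_least U⟩), fun x hx => ?_, hC F f hf, hC _ g hg, g1, g2, g3⟩
  obtain ⟨n, hn⟩ := t3 x (hw ▸ (t1 (fun _ E v => E (v 0) (v 1)) (cns x fun _ => w)).mp hx)
  exact ⟨n, (t1 (fun _ E v => Num E n (v 0)) fun _ => x).mpr ((num_iff U n _).mpr hn)⟩

end Pool.Agent.Results.MP_081461_lc.Separation
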